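import Pool.Agent.H42.Lit.Sum
import Pool.Agent.H42.MJ.Orient
import Pool.Agent.H4.Lit.Defs

set_option autoImplicit false
open Set Topology Filter
open scoped Real
open Pool.Agent.H81.Q1
open Pool.Agent.H4.Lit (LitD clsd)
open Pool.Agent.H42.MJ (ctr off stp op xb ex outer_iter outer_next walk_sum off_face face_off zmod4
  face_follow norm_rp_sub rp rp_zero rp_one ex_spec xb_mem_frontier norm_xb_sub)

/-! # The lift of the outer contour of the component of the vertices in `D`

`lc X a k`: the last closed corner among the corners number `0, …, k` of the contour started at the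
closed corner `a`. `lift`: the boundary points seen along the contour are `ρ (T k)` with `T` making
small steps and `T (k + N) = T k - 2π`. -/

namespace Pool.Agent.H42.Lit

open Pool.Agent.H14.Jordan

variable {D : Set ℂ} {ρ : ℝ → ℂ} {δ : ℝ} {X : DDomain}

/-- Among four successive outer corners one is closed. -/
lemma run4 {c : Corner} (hc : c.1 ∈ X.V) (ho : IsOuter X.E c) :
    ∃ r < 4, clsd X ((next X.E)^[r] c) := by
  by_contra hcon
  push Not at hcon
  obtain ⟨v, q⟩ := c
  refine (outer_iff hc).1 ho ?_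
  -- the vertices of the face in the order of the contour
  have key : ∀ k : ℕ, k ≤ 4 → (next X.E)^[k] (v, q) =
      (Corner.face (v, q) + off (q + k), q + (k : ZMod 4)) := by
    intro k
    induction k with
    | zero =>
      intro _
      rw [Function.iterate_zero, id, Nat.cast_zero, add_zero, off_face]
    | succ k ih =>
      intro hk
      have h1 := ih (by omega)
      have h2 : Corner.edge ((next X.E)^[k] (v, q)) ∈ X.E := not_not.1 (hcon k (by omega))
      rw [h1] at h2
      rw [Function.iterate_succ_apply', h1, next_op h2, add_assoc, off_dir, Nat.cast_succ,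
        add_assoc]
  intro r
  obtain ⟨k, hk4, hk⟩ : ∃ k : ℕ, k < 4 ∧ q + (k : ZMod 4) = r := by
    refine ⟨(r - q).val, ZMod.val_lt _, ?_⟩
    rw [ZMod.natCast_val, ZMod.cast_id]; ring
  have h2 : Corner.edge ((next X.E)^[k] (v, q)) ∈ X.E := not_not.1 (hcon k hk4)
  rw [key k hk4.le, hk] at h2
  exact h2

/-- The last closed corner at a time `≤ k`. -/
noncomputable def lc (X : DDomain) (a : Corner) : ℕ → Corner
  | 0 => a
  | k + 1 => open Classical in
    if clsd X ((next X.E)^[k + 1] a) then (next X.E)^[k + 1] a else lc X a k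

lemma lc_of_clsd {a : Corner} {k : ℕ} (h : clsd X ((next X.E)^[k] a)) :
    lc X a k = (next X.E)^[k] a := by
  cases k with
  | zero => rfl
  | succ k => rw [lc, if_pos h]

lemma lc_spec {a : Corner} (ha : a.1 ∈ X.V) (ho : IsOuter X.E a) (hcl : clsd X a) (k : ℕ) :
    ∃ j ≤ k, lc X a k = (next X.E)^[j] a ∧ clsd X ((next X.E)^[j] a) ∧ k ≤ j + 3 ∧
      ∀ i, j < i → i ≤ k → ¬clsd X ((next X.E)^[i] a) := by
  induction k with
  | zero => exact ⟨0, le_rfl, rfl, hcl, by omega, fun i h1 h2 => by omega⟩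
  | succ k ih =>
    obtain ⟨j, h1, h2, h3, h4, h5⟩ := ih
    by_cases hc : clsd X ((next X.E)^[k + 1] a)
    · exact ⟨k + 1, le_rfl, lc_of_clsd hc, hc, by omega, fun i h1 h2 => by omega⟩
    · have h6 : ∀ i, j < i → i ≤ k + 1 → ¬clsd X ((next X.E)^[i] a) := by
        intro i hi hi'
        rcases Nat.lt_or_ge k i with h | h
        · have : i = k + 1 := by omega
          rw [this]; exact hc
        · exact h5 i hi h
      refine ⟨j, by omega, ?_, h3, ?_, h6⟩
      · rw [lc, if_neg hc]; exact h2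
      · by_contra hcon
        obtain ⟨r, hr, hr'⟩ := run4 (iter_mem ha (j + 1)) (outer_iter ho (j + 1))
        rw [← Function.iterate_add_apply] at hr'
        exact h6 (r + (j + 1)) (by omega) (by omega) hr'

lemma lc_period {a : Corner} (hcl : clsd X a) (k : ℕ) :
    lc X a (k + Function.minimalPeriod (next X.E) a) = lc X a k := by
  set N := Function.minimalPeriod (next X.E) a with hN
  have hper : (next X.E)^[N] a = a := Function.isPeriodicPt_minimalPeriod _ _
  induction k with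
  | zero =>
    rw [zero_add, lc_of_clsd (by rw [hper]; exact hcl), hper]; rfl
  | succ k ih =>
    have h1 : (next X.E)^[k + 1 + N] a = (next X.E)^[k + 1] a := by
      rw [Function.iterate_add_apply, hper]
    have h2 : k + 1 + N = k + N + 1 := by omega
    rw [h2, lc, lc, ih]
    rw [← h2, h1]

lemma norm_step (hδ : 0 < δ) (c : Corner) : ‖pt δ (next X.E c).1 - pt δ c.1‖ ≤ δ := by
  obtain ⟨v, q⟩ := c
  by_cases h : Corner.edge (v, q) ∈ X.E
  · rw [next_op h]
    simp only
    rw [← rp_one v q, ← rp_zero v q]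
    refine (norm_rp_sub v q _ _ _ _).trans ?_
    rw [abs_of_pos hδ]; norm_num
  · rw [next_clo h]; simp [hδ.le]

lemma norm_iter (hδ : 0 < δ) (c : Corner) (k : ℕ) :
    ‖pt δ ((next X.E)^[k] c).1 - pt δ c.1‖ ≤ k * δ := by
  induction k with
  | zero => simp
  | succ k ih =>
    rw [Function.iterate_succ_apply']
    have h1 := norm_step (X := X) hδ ((next X.E)^[k] c)
    have h2 := norm_add_le (pt δ (next X.E ((next X.E)^[k] c)).1 - pt δ ((next X.E)^[k] c).1)
      (pt δ ((next X.E)^[k] c).1 - pt δ c.1)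
    rw [sub_add_sub_cancel] at h2
    push_cast
    linarith

/-- The vertex of a closed corner is in `D`. -/
lemma pt_mem (hX : LitD D δ X) {c : Corner} (hc : c.1 ∈ X.V) (h : clsd X c) : pt δ c.1 ∈ D := by
  have h' := (hX.clsd_iff hc).1 h
  first
    | exact hX.sub _ hc
    | exact hX.sub _ hc _ h'

/-- The edge of a closed corner leaves `D`. -/
lemma not_op (hX : LitD D δ X) {c : Corner} (hc : c.1 ∈ X.V) (h : clsd X c) :
    ¬op D δ c.1 c.2 := fun h' => hX.not_mem hc h h'.mem'

/-- The contour is within `4δ` of the boundary point seen last. -/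
lemma norm_lc (hX : LitD D δ X) (hD : IsOpen D) (hδ : 0 < δ) {a : Corner} (ha : a.1 ∈ X.V)
    (ho : IsOuter X.E a) (hcl : clsd X a) (k : ℕ) :
    ‖pt δ ((next X.E)^[k] a).1 - xb D δ (lc X a k).1 (lc X a k).2‖ ≤ 4 * δ := by
  obtain ⟨j, h1, h2, h3, h4, -⟩ := lc_spec ha ho hcl k
  rw [h2]
  have hj := iter_mem ha j
  have e1 := norm_xb_sub hD hδ (pt_mem hX hj h3) (not_op hX hj h3)
  have e3 := norm_iter (X := X) hδ ((next X.E)^[j] a) (k - j)
  rw [← Function.iterate_add_apply] at e3
  have e4 : k - j + j = k := by omega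
  rw [e4] at e3
  have e5 : ((k - j : ℕ) : ℝ) ≤ 3 := by exact_mod_cast (by omega : k - j ≤ 3)
  have e6 : ((k - j : ℕ) : ℝ) * δ ≤ 3 * δ := mul_le_mul_of_nonneg_right e5 hδ.le
  have e7 := norm_sub_le (pt δ ((next X.E)^[k] a).1 - pt δ ((next X.E)^[j] a).1)
    (xb D δ ((next X.E)^[j] a).1 ((next X.E)^[j] a).2 - pt δ ((next X.E)^[j] a).1)
  rw [sub_sub_sub_cancel_right] at e7
  linarith

lemma lc_frontier (hX : LitD D δ X) (hD : IsOpen D) {a : Corner} (ha : a.1 ∈ X.V)
    (ho : IsOuter X.E a) (hcl : clsd X a) (k : ℕ) :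
    xb D δ (lc X a k).1 (lc X a k).2 ∈ frontier D := by
  obtain ⟨j, h1, h2, h3, h4, -⟩ := lc_spec ha ho hcl k
  rw [h2]
  have hj := iter_mem ha j
  exact xb_mem_frontier hD (pt_mem hX hj h3) (not_op hX hj h3)

lemma lift_int {L : ℝ → ℂ} (hW : ∀ t, (L (t + 2 * π)).im = (L t).im + 2 * π) (n : ℤ) (t : ℝ) :
    (L (t + n * (2 * π))).im = (L t).im + n * (2 * π) := by
  have h1 : ∀ (n : ℕ) (t : ℝ), (L (t + n * (2 * π))).im = (L t).im + n * (2 * π) := by
    intro n
    induction n with
    | zero => intro t; simp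
    | succ n ih =>
      intro t
      have : t + ((n + 1 : ℕ) : ℝ) * (2 * π) = (t + n * (2 * π)) + 2 * π := by push_cast; ring
      rw [this, hW, ih]; push_cast; ring
  obtain ⟨m, rfl | rfl⟩ := n.eq_nat_or_neg
  · exact_mod_cast h1 m t
  · have := h1 m (t + ((-(m : ℤ) : ℤ) : ℝ) * (2 * π))
    push_cast at this ⊢
    have e : t + -(m : ℝ) * (2 * π) + m * (2 * π) = t := by ring
    rw [e] at this
    linarith

/-- The lift of a loop is uniformly continuous. -/
lemma lift_unif {L : ℝ → ℂ} (hLc : Continuous L)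
    (hW : ∀ t, (L (t + 2 * π)).im = (L t).im + 2 * π) {ε : ℝ} (hε : 0 < ε) :
    ∃ η > 0, ∀ s t, |s - t| < η → |(L s).im - (L t).im| < ε := by
  have hpi := Real.two_pi_pos
  have hu1 : UniformContinuousOn (fun t => (L t).im) (Icc (-1) (2 * π + 1)) :=
    isCompact_Icc.uniformContinuousOn_of_continuous (by fun_prop)
  obtain ⟨η, hη, h⟩ := Metric.uniformContinuousOn_iff.1 hu1 ε hε
  refine ⟨min η 1, by positivity, fun s t hst => ?_⟩
  obtain ⟨n, hn, -⟩ := existsUnique_zsmul_near_of_pos hpi t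
  simp only [zsmul_eq_mul] at hn
  have h1 := hst.trans_le (min_le_left _ _)
  have h2 := abs_lt.1 (hst.trans_le (min_le_right _ _))
  have hn1 := hn.1
  have hn2 := hn.2
  push_cast at hn2
  rw [add_mul, one_mul] at hn2
  have h3 := h (s + (-n : ℤ) * (2 * π)) ⟨by push_cast; linarith, by push_cast; linarith⟩
    (t + (-n : ℤ) * (2 * π)) ⟨by push_cast; linarith, by push_cast; linarith⟩
    (by rw [Real.dist_eq, add_sub_add_right_eq_sub]; exact h1)
  rw [lift_int hW, lift_int hW, Real.dist_eq, add_sub_add_right_eq_sub] at h3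
  exact h3

/-- **The lift of the contour.** -/
theorem lift (hJ : IsJD D ρ) {z0 : ℂ} (hz0 : z0 ∈ D) {L : ℝ → ℂ}
    (hLc : Continuous L) (hL : ∀ t, Complex.exp (L t) = ρ t - z0)
    (hW : ∀ t, (L (t + 2 * π)).im = (L t).im + 2 * π) {ω : ℝ} (hω : 0 < ω) :
    ∃ ε > 0, ∀ δ, 0 < δ → δ < ε → ∀ X : DDomain, LitD D δ X →
      ∀ a : Corner, a.1 ∈ X.V → IsOuter X.E a → clsd X a →
      ∀ g, ‖ctr δ g - z0‖ < ε → FaceIn X g → ∀ s, ρ s = xb D δ a.1 a.2 →
      ∃ T : ℕ → ℝ, T 0 = s ∧ (∀ k, ρ (T k) = xb D δ (lc X a k).1 (lc X a k).2) ∧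
        (∀ k, |T (k + 1) - T k| < ω) ∧
        ∀ k, T (k + Function.minimalPeriod (next X.E) a) = T k - 2 * π := by
  have hpi := Real.two_pi_pos
  have hpi1 := Real.pi_pos
  obtain ⟨r0, hr0, hball⟩ := Metric.isOpen_iff.1 hJ.isOpen z0 hz0
  have hfar : ∀ t, r0 ≤ ‖ρ t - z0‖ := by
    intro t
    by_contra hc
    push Not at hc
    refine hJ.notMem (hball ?_) ⟨t, rfl⟩
    rwa [Metric.mem_ball, dist_eq_norm]
  obtain ⟨η1, hη1, hu⟩ := lift_unif hLc hW (ε := π / 2) (by positivity)
  set η := min (min η1 ω) (π / 2) with hη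
  have hη0 : 0 < η := by positivity
  have hηη1 : η ≤ η1 := (min_le_left _ _).trans (min_le_left _ _)
  have hηω : η ≤ ω := (min_le_left _ _).trans (min_le_right _ _)
  have hηπ : η ≤ π / 2 := min_le_right _ _
  obtain ⟨δ1, hδ1, hinv⟩ := hJ.loop.uniform_inv hη0
  refine ⟨min (r0 / 8) (δ1 / 9), by positivity, ?_⟩
  intro δ hδ hδε X hX a ha ho hcl g hg hF s hs
  have hδ8 : δ < r0 / 8 := hδε.trans_le (min_le_left _ _)
  have hδ9 : δ < δ1 / 9 := hδε.trans_le (min_le_right _ _)
  set z := ctr δ g with hz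
  have hz8 : ‖z - z0‖ < r0 / 8 := hg.trans_le (min_le_left _ _)
  set p : ℕ → ℂ := fun k => pt δ ((next X.E)^[k] a).1 with hp
  set x : ℕ → ℂ := fun k => xb D δ (lc X a k).1 (lc X a k).2 with hx
  have hpx : ∀ k, ‖p k - x k‖ ≤ 4 * δ := fun k => norm_lc hX hJ.isOpen hδ ha ho hcl k
  have hpp : ∀ k, ‖p (k + 1) - p k‖ ≤ δ := by
    intro k
    simp only [hp]
    rw [Function.iterate_succ_apply']
    exact norm_step hδ _
  have hxx : ∀ k, dist (x (k + 1)) (x k) < δ1 := by
    intro k
    rw [dist_eq_norm]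
    have e2 : x (k + 1) - x k = (p (k + 1) - p k) - (p (k + 1) - x (k + 1)) + (p k - x k) := by
      ring
    rw [e2]
    have e3 := norm_add_le ((p (k + 1) - p k) - (p (k + 1) - x (k + 1))) (p k - x k)
    have e4 := norm_sub_le (p (k + 1) - p k) (p (k + 1) - x (k + 1))
    have e5 := hpp k
    have e6 := hpx k
    have e7 := hpx (k + 1)
    linarith
  have hxr : ∀ k, ∃ t, ρ t = x k := by
    intro k
    have := lc_frontier hX hJ.isOpen ha ho hcl k
    rw [hJ.fr] at this
    exact this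
  -- the lift
  have step : ∀ k, ∀ t : {t // ρ t = x k}, ∃ t' : {t // ρ t = x (k + 1)}, |t'.1 - t.1| < η := by
    rintro k ⟨t, ht⟩
    obtain ⟨t', ht'⟩ := hxr (k + 1)
    obtain ⟨n, hn⟩ := hinv t' t (by rw [ht', ht]; exact hxx k)
    refine ⟨⟨t' - n * (2 * π), ?_⟩, ?_⟩
    · rw [← ht', hJ.loop.inj]
      exact ⟨-n, by push_cast; ring⟩
    · rw [sub_right_comm]; exact hn
  choose F hF' using step
  set T' : ∀ k, {t // ρ t = x k} := fun k =>
    Nat.rec (motive := fun k => {t // ρ t = x k}) ⟨s, hs⟩ (fun k t => F k t) k with hT'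
  set T : ℕ → ℝ := fun k => (T' k).1 with hT
  have T0 : T 0 = s := rfl
  have Tx : ∀ k, ρ (T k) = x k := fun k => (T' k).2
  have Ts : ∀ k, |T (k + 1) - T k| < η := fun k => hF' k (T' k)
  set N := Function.minimalPeriod (next X.E) a with hN
  have hper : (next X.E)^[N] a = a := Function.isPeriodicPt_minimalPeriod _ _
  have xN : ∀ k, x (k + N) = x k := by
    intro k
    simp only [hx]
    rw [lc_period hcl]
  -- the total turning
  have h1 : ∀ k, 0 ≤ k → k ≤ N → ‖(p k - z) - (ρ (T k) - z0)‖ < ‖ρ (T k) - z0‖ := by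
    intro k _ _
    refine lt_of_lt_of_le ?_ (hfar (T k))
    rw [Tx k]
    have e1 : (p k - z) - (x k - z0) = (p k - x k) - (z - z0) := by ring
    rw [e1]
    have e2 := norm_sub_le (p k - x k) (z - z0)
    have e3 := hpx k
    linarith
  have h2 : ∀ k, 0 ≤ k → k < N → ‖p (k + 1) - p k‖ < ‖p k - z‖ := by
    intro k _ _
    refine (hpp k).trans_lt ?_
    have e1 := norm_sub_norm_le (ρ (T k) - z0) ((ρ (T k) - z0) - (p k - z))
    rw [sub_sub_cancel] at e1
    have e2 := hfar (T k)
    have e3 : ‖(ρ (T k) - z0) - (p k - z)‖ ≤ 4 * δ + ‖z - z0‖ := by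
      rw [Tx k]
      have e4 : (x k - z0) - (p k - z) = (z - z0) - (p k - x k) := by ring
      rw [e4]
      have e5 := norm_sub_le (z - z0) (p k - x k)
      have e6 := hpx k
      linarith
    linarith
  have h3 : ∀ k, 0 ≤ k → k < N → |(L (T (k + 1))).im - (L (T k)).im| < π / 2 := by
    intro k _ _
    exact hu _ _ ((Ts k).trans_le hηη1)
  have h4 := walk_sum hL (Nat.zero_le N) h1 h2 h3
  have htot := total (X := X) hδ ha ho g
  rw [if_pos hF] at htot
  have h5 : ∀ k, stp X δ z ((next X.E)^[k] a) = ((p (k + 1) - z) / (p k - z)).arg := by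
    intro k
    simp only [stp, hp]
    rw [Function.iterate_succ_apply']
  rw [Finset.sum_congr rfl fun k _ => h5 k, Finset.range_eq_Ico, h4] at htot
  have pN : p N = p 0 := by simp only [hp]; rw [hper]; rfl
  have xN0 : x N = x 0 := by have := xN 0; rwa [zero_add] at this
  rw [Tx N, Tx 0, pN, xN0] at htot
  obtain ⟨n, hn⟩ := (hJ.loop.inj (T N) (T 0)).1 (by rw [Tx N, Tx 0, xN0])
  have h6 : (L (T N)).im = (L (T 0)).im + n * (2 * π) := by rw [hn]; exact lift_int hW n _
  have h7 : (n : ℝ) = -1 := by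
    rw [h6] at htot
    have h8 : ((n : ℝ) + 1) * (2 * π) = 0 := by linarith
    rcases mul_eq_zero.1 h8 with h9 | h9
    · linarith
    · exact absurd h9 hpi.ne'
  have TN : T N = T 0 - 2 * π := by rw [hn, h7]; ring
  refine ⟨T, T0, Tx, fun k => (Ts k).trans_le hηω, ?_⟩
  intro k
  induction k with
  | zero => rw [zero_add]; exact TN
  | succ k ih =>
    obtain ⟨m, hm⟩ := (hJ.loop.inj (T (k + 1 + N)) (T (k + 1))).1
      (by rw [Tx (k + 1 + N), Tx (k + 1), xN])
    have e1 := abs_lt.1 (Ts k)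
    have e2 := abs_lt.1 (Ts (k + N))
    have e3 : k + N + 1 = k + 1 + N := by omega
    rw [e3] at e2
    have h8 : |((m : ℝ) + 1) * (2 * π)| < 2 * π := by
      have : ((m : ℝ) + 1) * (2 * π) =
          (T (k + 1 + N) - T (k + N)) - (T (k + 1) - T k) := by rw [ih, hm]; ring
      rw [this, abs_lt]
      constructor <;> linarith
    have h9 : m + 1 = 0 := by
      rw [abs_mul, abs_of_pos hpi] at h8
      have h10 : |(m : ℝ) + 1| < 1 := by
        by_contra hc
        push Not at hc
        nlinarith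
      have h11 : |m + 1| < 1 := by exact_mod_cast h10
      exact Int.abs_lt_one_iff.1 h11
    have h12 : (m : ℝ) = -1 := by
      have : m = -1 := by omega
      rw [this]; norm_num
    rw [hm, h12]; ring

end Pool.Agent.H42.Lit
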