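import Pool.Agent.H42.MJ.Sum

set_option autoImplicit false
open Set Topology Filter
open Pool.Agent.H81.Q1
open Pool.Agent.H42.MJ (ctr al off off_0 off_1 off_2 off_3 face_off off_face sum_zmod4
  face_sum_self face_sum_ne stp pt_ne_ctr al_rev dir_0 dir_1 dir_2 dir_3 face_follow outer_next
  outer_iter orbit_outer zmod4 dir_add_two dir_ne_zero)

/-! # The total turning of the outer contour of an arbitrary discrete domain -/

namespace Pool.Agent.H42.Lit

variable {δ : ℝ} {X : DDomain}

/-- The four edges of the face `f` belong to the domain. -/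
def FaceIn (X : DDomain) (f : ℤ × ℤ) : Prop := ∀ q : ZMod 4, Corner.edge (f + off q, q) ∈ X.E

lemma mem_of_edge {v : ℤ × ℤ} {q : ZMod 4} (h : Corner.edge (v, q) ∈ X.E) :
    v ∈ X.V ∧ v + dir q ∈ X.V :=
  ⟨(X.subE h).2 v (Sym2.mem_mk_left _ _), (X.subE h).2 _ (Sym2.mem_mk_right _ _)⟩

lemma edge_rev {v : ℤ × ℤ} {q : ZMod 4} :
    Corner.edge (v + dir q, q + 2) = Corner.edge (v, q) := by
  unfold Corner.edge
  simp only
  rw [dir_add_two, add_neg_cancel_right, Sym2.eq_swap]

lemma next_op {v : ℤ × ℤ} {q : ZMod 4} (h : Corner.edge (v, q) ∈ X.E) :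
    next X.E (v, q) = (v + dir q, q + 1) := by
  unfold next; rw [if_pos h]

lemma next_clo {v : ℤ × ℤ} {q : ZMod 4} (h : Corner.edge (v, q) ∉ X.E) :
    next X.E (v, q) = (v, q - 1) := by
  unfold next; rw [if_neg h]

lemma next_mem {c : Corner} (hc : c.1 ∈ X.V) : (next X.E c).1 ∈ X.V := by
  obtain ⟨v, q⟩ := c
  by_cases h : Corner.edge (v, q) ∈ X.E
  · rw [next_op h]; exact (mem_of_edge h).2
  · rw [next_clo h]; exact hc

lemma iter_mem {c : Corner} (hc : c.1 ∈ X.V) (i : ℕ) : ((next X.E)^[i] c).1 ∈ X.V := by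
  induction i with
  | zero => exact hc
  | succ i ih => rw [Function.iterate_succ_apply']; exact next_mem ih

lemma off_dir (q : ZMod 4) : off q + dir q = off (q + 1) := by revert q; decide

lemma faceIn_iff {f : ℤ × ℤ} : FaceIn X f ↔ (s(f, f + (1, 0)) ∈ X.E ∧
    s(f + (1, 0), f + (1, 1)) ∈ X.E ∧ s(f + (1, 1), f + (0, 1)) ∈ X.E ∧
    s(f + (0, 1), f) ∈ X.E) := by
  have e : ∀ q : ZMod 4, Corner.edge (f + off q, q) = s(f + off q, f + off (q + 1)) := by
    intro q
    unfold Corner.edge
    simp only
    rw [add_assoc, off_dir]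
  have e1 : (0 + 1 : ZMod 4) = 1 := by decide
  have e2 : (1 + 1 : ZMod 4) = 2 := by decide
  have e3 : (2 + 1 : ZMod 4) = 3 := by decide
  have e4 : (3 + 1 : ZMod 4) = 0 := by decide
  unfold FaceIn
  constructor
  · intro h
    have h0 := h 0
    have h1 := h 1
    have h2 := h 2
    have h3 := h 3
    rw [e] at h0 h1 h2 h3
    simp only [e1, e2, e3, e4, off_0, off_1, off_2, off_3, Prod.mk_zero_zero, add_zero]
      at h0 h1 h2 h3
    exact ⟨h0, h1, h2, h3⟩
  · rintro ⟨h0, h1, h2, h3⟩ q
    rw [e]
    rcases zmod4 q with rfl | rfl | rfl | rfl <;>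
      simp only [e1, e2, e3, e4, off_0, off_1, off_2, off_3, Prod.mk_zero_zero, add_zero]
    · exact h0
    · exact h1
    · exact h2
    · exact h3

lemma not_outer {c : Corner} (h : FaceIn X c.face) : ¬IsOuter X.E c := by
  rw [faceIn_iff] at h
  obtain ⟨o1, o2, o3, o4⟩ := h
  obtain ⟨v, q⟩ := c
  set f := Corner.face (v, q) with hf
  have hno : ∀ g, ¬faceStep X.E f g := by
    rintro g (⟨-, h⟩ | ⟨-, h⟩ | ⟨-, h⟩ | ⟨-, h⟩)
    · refine h ?_
      convert o2 using 2 <;> ext <;> simp
    · refine h ?_
      rw [Sym2.eq_swap]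
      convert o4 using 2
      ext <;> simp
    · refine h ?_
      rw [Sym2.eq_swap]
      convert o3 using 2
      · ext <;> simp
      · ext <;> simp
    · refine h ?_
      convert o1 using 2
      ext <;> simp
  intro hout
  obtain ⟨g, h1, h2⟩ := hout (|f.1| + |f.2| + 1)
  rcases h1.cases_head with h3 | ⟨g', h3, -⟩
  · have h4 : f = g := h3
    rw [← h4] at h2
    omega
  · exact hno g' h3

lemma outer_of_face {c c' : Corner} (h : c.face = c'.face) (ho : IsOuter X.E c) :
    IsOuter X.E c' := by
  intro n; rw [← h]; exact ho n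

/-- A corner of the domain is an outer corner iff one of the edges of its face is not in `E`. -/
lemma outer_iff {c : Corner} (hc : c.1 ∈ X.V) : IsOuter X.E c ↔ ¬FaceIn X c.face := by
  constructor
  · intro h h'; exact not_outer h' h
  · intro h
    by_contra hno
    apply h
    obtain ⟨v, q⟩ := c
    -- the vertices of the face in the order of the contour
    have key : ∀ k : ℕ, ∃ w : ℤ × ℤ, w = Corner.face (v, q) + off (q + k) ∧ w ∈ X.V ∧
        Corner.edge (w, q + (k : ZMod 4)) ∈ X.E := by
      intro k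
      induction k with
      | zero =>
        refine ⟨v, ?_, hc, ?_⟩
        · rw [Nat.cast_zero, add_zero, off_face]
        · rw [Nat.cast_zero, add_zero]
          by_contra he
          exact hno (X.noHole (v, q) hc he)
      | succ k ih =>
        obtain ⟨w, hw, hwV, hwE⟩ := ih
        have hm := (mem_of_edge hwE).2
        refine ⟨w + dir (q + k), ?_, hm, ?_⟩
        · rw [hw, add_assoc, off_dir, Nat.cast_succ, add_assoc]
        · by_contra he
          have h1 := X.noHole (w + dir (q + k), q + ((k + 1 : ℕ) : ZMod 4)) hm he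
          refine hno (outer_of_face ?_ h1)
          rw [Nat.cast_succ, ← add_assoc, face_follow, hw, face_off]
    intro r
    obtain ⟨k, hk⟩ : ∃ k : ℕ, q + (k : ZMod 4) = r := by
      refine ⟨(r - q).val, ?_⟩
      rw [ZMod.natCast_val, ZMod.cast_id]; ring
    obtain ⟨w, hw, -, hE⟩ := key k
    rw [hk] at hw hE
    rwa [hw] at hE

lemma stp_op {z : ℂ} {v : ℤ × ℤ} {q : ZMod 4} (h : Corner.edge (v, q) ∈ X.E) :
    stp X δ z (v, q) = al δ z v q := by
  unfold stp al; rw [next_op h]

lemma stp_clo {z : ℂ} {v : ℤ × ℤ} {q : ZMod 4} (h : Corner.edge (v, q) ∉ X.E)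
    (hz : pt δ v - z ≠ 0) : stp X δ z (v, q) = 0 := by
  unfold stp; rw [next_clo h, div_self hz, Complex.arg_one]

lemma period_pos {a : Corner} (haV : a.1 ∈ X.V) (ha : IsOuter X.E a) :
    0 < Function.minimalPeriod (next X.E) a := by
  obtain ⟨i, hi⟩ := orbit_outer X (next_mem haV) haV (outer_next ha) ha
  refine Function.IsPeriodicPt.minimalPeriod_pos (n := i + 1) (Nat.succ_pos i) ?_
  unfold Function.IsPeriodicPt Function.IsFixedPt
  rw [Function.iterate_succ_apply]; exact hi

/-- **The total turning of the outer contour of a discrete domain.** -/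
theorem total (hδ : 0 < δ) {a : Corner} (haV : a.1 ∈ X.V) (ha : IsOuter X.E a) (g : ℤ × ℤ) :
    ∑ k ∈ Finset.range (Function.minimalPeriod (next X.E) a),
      stp X δ (ctr δ g) ((next X.E)^[k] a) =
      (open Classical in if FaceIn X g then -(2 * Real.pi) else 0) := by
  classical
  set z := ctr δ g with hz
  set N := Function.minimalPeriod (next X.E) a with hN
  set C : Finset Corner := X.finV.toFinset ×ˢ Finset.univ with hC
  have memC : ∀ c : Corner, c ∈ C ↔ c.1 ∈ X.V := fun c => by simp [hC]
  have hper : 0 < N := period_pos haV ha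
  -- all corners
  have h1 : ∑ c ∈ C, stp X δ z c = 0 := by
    refine Finset.sum_involution
      (fun c _ => if c.edge ∈ X.E then (c.1 + dir c.2, c.2 + 2) else c) ?_ ?_ ?_ ?_
    · intro c hc
      obtain ⟨v, q⟩ := c
      split_ifs with h
      · rw [stp_op h, stp_op (by rw [edge_rev]; exact h), hz, al_rev hδ.ne']
        ring
      · rw [stp_clo h (pt_ne_ctr hδ.ne' _ _), add_zero]
    · intro c hc h0
      obtain ⟨v, q⟩ := c
      split_ifs with h
      · intro h2
        have h3 := congrArg Prod.fst h2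
        simp only [add_eq_left] at h3
        exact dir_ne_zero q h3
      · exact absurd (stp_clo h (pt_ne_ctr hδ.ne' _ _)) h0
    · intro c hc
      have hcV := (memC c).1 hc
      rw [memC]
      obtain ⟨v, q⟩ := c
      split_ifs with h
      · exact (mem_of_edge h).2
      · exact hcV
    · intro c hc
      obtain ⟨v, q⟩ := c
      by_cases h : Corner.edge (v, q) ∈ X.E
      · have h' : Corner.edge (v + dir q, q + 2) ∈ X.E := by rw [edge_rev]; exact h
        simp only [h, if_true, h']
        rw [dir_add_two, add_neg_cancel_right, add_assoc]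
        have : (2 + 2 : ZMod 4) = 0 := by decide
        rw [this, add_zero]
      · simp only [h, if_false]
  -- inner corners
  have hfin : {f : ℤ × ℤ | FaceIn X f}.Finite := by
    refine X.finV.subset fun f hf => ?_
    have := (mem_of_edge (hf 0)).1
    rwa [off_0, Prod.mk_zero_zero, add_zero] at this
  set F : Finset (ℤ × ℤ) := hfin.toFinset with hF
  have memF : ∀ f, f ∈ F ↔ FaceIn X f := fun f => by simp [hF]
  have hoffV : ∀ f ∈ F, ∀ q, f + off q ∈ X.V := fun f hf q =>
    (mem_of_edge ((memF f).1 hf q)).1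
  have h2 : ∑ c ∈ C.filter (fun c => ¬IsOuter X.E c), stp X δ z c =
      ∑ p ∈ F ×ˢ (Finset.univ : Finset (ZMod 4)), stp X δ z (p.1 + off p.2, p.2) := by
    refine Finset.sum_bij' (fun c _ => (c.face, c.2)) (fun p _ => (p.1 + off p.2, p.2))
      ?_ ?_ ?_ ?_ ?_
    · intro c hc
      obtain ⟨hc1, hc2⟩ := Finset.mem_filter.1 hc
      have hcV := (memC c).1 hc1
      have hin : FaceIn X c.face := by
        by_contra h
        exact hc2 ((outer_iff hcV).2 h)
      simp only [Finset.mem_product, Finset.mem_univ, and_true]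
      exact (memF _).2 hin
    · intro p hp
      simp only [Finset.mem_product, Finset.mem_univ, and_true] at hp
      have hV := hoffV p.1 hp p.2
      refine Finset.mem_filter.2 ⟨(memC _).2 hV, ?_⟩
      refine not_outer ?_
      rw [face_off]
      exact (memF _).1 hp
    · intro c _
      simp only
      rw [show c.face = Corner.face (c.1, c.2) from rfl, off_face]
    · intro p _
      simp only
      rw [face_off]
    · intro c _
      simp only
      rw [show c.face = Corner.face (c.1, c.2) from rfl, off_face]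
  have h3 : ∑ p ∈ F ×ˢ (Finset.univ : Finset (ZMod 4)), stp X δ z (p.1 + off p.2, p.2) =
      if FaceIn X g then 2 * Real.pi else 0 := by
    rw [Finset.sum_product]
    have h4 : ∀ f ∈ F, ∑ q : ZMod 4, stp X δ z (f + off q, q) =
        if f = g then 2 * Real.pi else 0 := by
      intro f hf
      have h5 : ∀ q : ZMod 4, stp X δ z (f + off q, q) = al δ z (f + off q) q := fun q =>
        stp_op ((memF f).1 hf q)
      rw [Finset.sum_congr rfl fun q _ => h5 q]
      split_ifs with hfg
      · subst hfg; exact face_sum_self hδ.ne' f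
      · exact face_sum_ne hδ hfg
    rw [Finset.sum_congr rfl h4, Finset.sum_ite_eq' F g]
    simp only [memF]
  -- outer corners
  have h4 : ∑ c ∈ C.filter (fun c => IsOuter X.E c), stp X δ z c =
      ∑ k ∈ Finset.range N, stp X δ z ((next X.E)^[k] a) := by
    symm
    refine Finset.sum_bij (fun k _ => (next X.E)^[k] a) ?_ ?_ ?_ ?_
    · intro k _
      exact Finset.mem_filter.2 ⟨(memC _).2 (iter_mem haV k), outer_iter ha k⟩
    · intro k hk l hl hkl
      exact Function.iterate_injOn_Iio_minimalPeriod (Finset.mem_range.1 hk)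
        (Finset.mem_range.1 hl) hkl
    · intro c hc
      obtain ⟨hc1, hc2⟩ := Finset.mem_filter.1 hc
      obtain ⟨i, hi⟩ := orbit_outer X haV ((memC c).1 hc1) ha hc2
      refine ⟨i % N, Finset.mem_range.2 (Nat.mod_lt _ hper), ?_⟩
      rw [hN, Function.iterate_mod_minimalPeriod_eq, hi]
    · intro k _; rfl
  have h5 := Finset.sum_filter_add_sum_filter_not C (fun c => IsOuter X.E c) (stp X δ z)
  rw [h1, h4, h2, h3] at h5
  have h6 : (∑ k ∈ Finset.range N, stp X δ z ((next X.E)^[k] a)) =
    -(if FaceIn X g then 2 * Real.pi else 0) := by linarith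
  rw [h6]
  split_ifs <;> simp

end Pool.Agent.H42.Lit
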