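import Pool.Agent.H42.Lit.Lift
import Pool.Agent.H4.Lit.Key

set_option autoImplicit false
open Set Topology Filter
open scoped Real
open Pool.Agent.H81.Q1
open Pool.Agent.H4.Lit (LitD clsd Track)
open Pool.Agent.H42.MJ (ctr xb rp rp_eq_add ex_spec)

/-! # The lift as a `Track` -/

namespace Pool.Agent.H42.Lit

open Pool.Agent.H14.Jordan

variable {D : Set ℂ} {ρ : ℝ → ℂ} {δ : ℝ} {X : DDomain}

lemma xb_mem_segment (hX : LitD D δ X) (hD : IsOpen D) {c : Corner} (hc : c.1 ∈ X.V)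
    (h : clsd X c) : xb D δ c.1 c.2 ∈ segment ℝ (pt δ c.1) (pt δ (c.1 + dir c.2)) := by
  obtain ⟨h0, h1, -, -⟩ := ex_spec hD (pt_mem hX hc h) (not_op hX hc h)
  rw [segment_eq_image']
  exact ⟨_, ⟨h0.le, h1⟩, (rp_eq_add c.1 c.2 _).symm⟩

/-- **The lift of the contour, as a `Track`.** -/
theorem exists_track (hJ : IsJD D ρ) {z0 : ℂ} (hz0 : z0 ∈ D) {L : ℝ → ℂ}
    (hLc : Continuous L) (hL : ∀ t, Complex.exp (L t) = ρ t - z0)
    (hW : ∀ t, (L (t + 2 * π)).im = (L t).im + 2 * π) {ω : ℝ} (hω : 0 < ω) :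
    ∃ ε > 0, ∀ δ, 0 < δ → δ < ε → ∀ X : DDomain, LitD D δ X →
      ∀ a : Corner, a.1 ∈ X.V → IsOuter X.E a → clsd X a →
      ∀ g, ‖ctr δ g - z0‖ < ε → FaceIn X g → ∀ s, ρ s = xb D δ a.1 a.2 →
      ∃ T : ℕ → ℝ, T 0 = s ∧ Track δ ω X a ρ T ∧
        ∀ k, T (k + Function.minimalPeriod (next X.E) a) = T k - 2 * π := by
  obtain ⟨ε, hε, h⟩ := lift hJ hz0 hLc hL hW hω
  refine ⟨ε, hε, fun δ hδ hδε X hX a ha ho hcl g hg hF s hs => ?_⟩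
  obtain ⟨T, h0, h1, h2, h3⟩ := h δ hδ hδε X hX a ha ho hcl g hg hF s hs
  refine ⟨T, h0, ⟨?_, ?_, h2⟩, h3⟩
  · intro k hk
    rw [h1, lc_of_clsd hk]
    exact xb_mem_segment hX hJ.isOpen (iter_mem ha k) hk
  · intro k
    rw [h1]
    have := norm_lc hX hJ.isOpen hδ ha ho hcl k
    linarith

end Pool.Agent.H42.Lit
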